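import Pool.Agent.Q91.PP.Over
import Pool.Agent.W644.HK.Char0Main

/-!
# The Dennis trace `K_n(K[G]) → HH_n(K[G])`, `n ≥ 1`, for groups of piecewise projective
# homeomorphisms of the line

`K` is a field of characteristic zero and `G` a group, possibly with torsion, with finitely many
actions by increasing piecewise projective homeomorphisms of the line and a linear representation in
characteristic zero which together separate the elements of `G`; for example Thompson's group `F`,
a group of piecewise linear homeomorphisms, one of Monod's non-amenable groups without free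
subgroups, or a group of Lodha and Moore.  Let `z` be any cycle of degree `n + 1 ≥ 1` in the bar
complex (coefficients `ℤ`) of the group of invertible matrices over `K[G]`; every class of
`K_{n+1}(K[G])` gives such a `z` by the Hurewicz map `K_{n+1}(K[G]) → H_{n+1}(GL(K[G]); ℤ)`.  Its
Dennis trace is a class in `HH_{n+1}(K[G]) = ⨁_{[g]} H_{n+1}(C_G(g); K)`; we show that it is killed
by all Hochschild cocycles (with values in a finitely generated subring of `K`, for example `ℤ`)
which live on the elements of infinite order.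
-/

set_option autoImplicit false

namespace Pool.Agent.Results.MP_6374fb_al.HigherTraceProjective

open Pool.Agent.W644.HK

universe u v w x y

/-- `f` is piecewise projective: there are finitely many real matrices with nonzero determinant
such that `f` is given by one of the corresponding maps `z ↦ (α z + β) / (γ z + δ)` near `-∞` and
to the right of each point of the line. -/
def IsPiecewiseProjective (f : ℝ → ℝ) : Prop :=
  ∃ S : Finset (Matrix (Fin 2) (Fin 2) ℝ), (∀ M ∈ S, M.det ≠ 0) ∧
    (∃ M ∈ S, ∃ b : ℝ, ∀ z < b, f z * (M 1 0 * z + M 1 1) = M 0 0 * z + M 0 1) ∧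
    ∀ a : ℝ, ∃ M ∈ S, ∃ b > a, ∀ z, a < z → z < b →
      f z * (M 1 0 * z + M 1 1) = M 0 0 * z + M 0 1

theorem result (K : Type u) [Field K] [CharZero K] (G : Type v) [Group G]
    {ι : Type y} [Finite ι] (ρ : ι → G →* (ℝ ≃o ℝ))
    (hρ : ∀ (i : ι) (x : G), IsPiecewiseProjective (ρ i x))
    {L : Type x} [Field L] [CharZero L] (N : ℕ) (φ : G →* GL (Fin N) L)
    (hφ : ∀ g : G, φ g = 1 → (∀ i : ι, ρ i g = 1) → g = 1)
    (r : Type w) [Fintype r] [DecidableEq r] (n : ℕ)
    (z : (Fin (n + 1) → (Matrix r r (MonoidAlgebra K G))ˣ) →₀ ℤ) (hz : barBoundary z = 0)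
    (s : Finset K) (f : (Fin (n + 2) → G) → K) (hs : ∀ g, f g ∈ Algebra.adjoin ℤ (s : Set K))
    (hf : IsHochschildCocycle f)
    (hfin : ∀ (g : Fin (n + 2) → G) (m : ℕ), 0 < m → (List.ofFn g).prod ^ m = 1 → f g = 0) :
    dennis f z = 0 := by
  refine dennis_char0 z hz ?_ s f hs hf hfin
  intro H hH
  have : Group.FG H := (Group.fg_iff_subgroup_fg H).2 hH
  have hf1 : (⋃ i : ι, {p : ℕ | p.Prime ∧ ∃ g : H, ((ρ i).comp H.subtype) g ≠ 1 ∧
      ∀ k : ℕ, ∃ x : H, x ^ p ^ k = g}).Finite :=
    Set.finite_iUnion fun i => Pool.Agent.Q91.PP.pp_bad ((ρ i).comp H.subtype) fun x => hρ i x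
  have hf2 := Pool.Agent.Q91.PP.lin_bad (φ.comp H.subtype)
  have hf3 := Pool.Agent.Q91.PP.lin_root (φ.comp H.subtype)
  refine (Nat.infinite_setOfPred_prime.sdiff ((hf1.union hf2).union hf3)).mono ?_
  rintro p ⟨hp, hpB⟩
  have hp' : p.Prime := hp
  refine ⟨hp, ?_, ?_⟩
  · intro x hx y hy hxy
    rw [← inv_mul_eq_one]
    have hxy' : (⟨x, hx⟩ : H) ^ p = (⟨y, hy⟩ : H) ^ p := Subtype.ext (by simpa using hxy)
    apply hφ
    · have h5 : φ x = φ y := by
        by_contra hc
        exact hpB (Or.inr ⟨hp', ⟨x, hx⟩, ⟨y, hy⟩, hxy', hc⟩)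
      rw [map_mul, map_inv, h5, inv_mul_cancel]
    · intro i
      have h6 : ρ i x = ρ i y := Pool.Agent.Q91.PP.pp_root (ρ i) (fun x => hρ i x) hp'.pos hxy
      rw [map_mul, map_inv, h6, inv_mul_cancel]
  · intro g hg hinf j hj c hc heq
    have hconj : IsConj (⟨g, hg⟩ : H) (⟨g, hg⟩ ^ p ^ j) :=
      isConj_iff.2 ⟨⟨c, hc⟩, Subtype.ext (by simpa using heq)⟩
    have hroot := Pool.Agent.Q91.PP.divisible_of_conj hj hconj
    have h1 : ∀ i : ι, ρ i g = 1 := by
      intro i
      by_contra hc2
      exact hpB (Or.inl (Or.inl (Set.mem_iUnion.2 ⟨i, hp', ⟨g, hg⟩, hc2, hroot⟩)))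
    have h2 : ∃ E : ℕ, 0 < E ∧ φ g ^ E = 1 := by
      by_contra hc2
      push Not at hc2
      exact hpB (Or.inl (Or.inr ⟨hp', ⟨g, hg⟩, hroot, hc2⟩))
    obtain ⟨E, hE, h3⟩ := h2
    apply hinf E hE
    apply hφ
    · rw [map_pow, h3]
    · intro i
      rw [map_pow, h1 i, one_pow]

end Pool.Agent.Results.MP_6374fb_al.HigherTraceProjective
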