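import Pool.Agent.Q91.VR.Mixed
import Pool.Agent.Q91.PP.Over
import Pool.Agent.Y75.Hk.Six

/-!
# The Dennis trace `K_n(K[G]) → HH_n(K[G])`, `n ≥ 1`, has rational values

`K` is any field of characteristic zero and `G` a torsion-free group which either has finitely many
actions by increasing piecewise projective homeomorphisms of the line and a linear representation in
characteristic zero which together separate the elements (for example Thompson's group `F`, Monod's
groups, the groups of Lodha and Moore), or acts faithfully by automorphisms on a finitely generated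
linear group (for example on a free group `F_n`) or on a finitely generated commutative algebra over
a field of characteristic zero, or has only finitely generated subgroups which are virtually
residually finite `p`-groups for infinitely many primes `p`.  Let `z` be any cycle of degree
`n + 1 ≥ 1` in the bar complex (coefficients `ℤ`) of the group of invertible matrices over `K[G]`;
every class of `K_{n+1}(K[G])` gives such a `z` by the Hurewicz map
`K_{n+1}(K[G]) → H_{n+1}(GL(K[G]); ℤ)`.  We show that all integral Hochschild cocycles take
*rational* values on the Dennis trace of `z`.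
-/

set_option autoImplicit false

namespace Pool.Agent.Results.MP_6374fb_al.RationalTraces

open Pool.Agent.W644.HK Pool.Agent.Q91.VR

universe u v w

/-- Let `K` be a field of characteristic `0`, `G` a torsion-free group with the property `Mixed G`,
`z` a cycle of degree `n + 1` in the bar complex of the group of invertible `r × r` matrices over
`K[G]` and `f` a Hochschild `(n+1)`-cocycle on `G` with values in `ℤ[1/N]` (for example in `ℤ`).
Then the value of `f` on the Dennis trace of `z` is rational. -/
theorem result (K : Type u) [Field K] [CharZero K] (G : Type v) [Group G]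
    (htf : ∀ g : G, ∀ m : ℕ, 0 < m → g ^ m = 1 → g = 1) (hG : Mixed G)
    (r : Type w) [Fintype r] [DecidableEq r] (n : ℕ)
    (z : (Fin (n + 1) → (Matrix r r (MonoidAlgebra K G))ˣ) →₀ ℤ) (hz : barBoundary z = 0)
    (N : ℕ) (hN : 0 < N)
    (f : (Fin (n + 2) → G) → ℚ) (hfN : ∀ g, ∃ (k : ℕ) (a : ℤ), f g * (N : ℚ) ^ k = a)
    (hf : IsHochschildCocycle f) :
    ∃ q : ℚ, dennis (fun g => ((f g : ℚ) : K)) z = q := by
  refine Pool.Agent.Y75.Hk.dennis_rational_linear ?_ (fun g m hm h => htf g m hm h) z hz N hN f hfN
    hf
  intro H hH
  refine (hG.good htf H hH).mono ?_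
  rintro p ⟨hp, h1, h2⟩
  refine ⟨hp, ?_, ?_⟩
  · intro x hx y hy hxy
    exact congrArg Subtype.val (h1 ⟨x, hx⟩ ⟨y, hy⟩ (Subtype.ext (by simpa using hxy)))
  · intro g hg hinf j hj c hc heq
    have hconj : IsConj (⟨g, hg⟩ : H) (⟨g, hg⟩ ^ p ^ j) :=
      isConj_iff.2 ⟨⟨c, hc⟩, Subtype.ext (by simpa using heq)⟩
    obtain ⟨k, hk⟩ := h2 ⟨g, hg⟩ (fun hc => hinf 1 one_pos (by
      rw [pow_one]
      exact congrArg Subtype.val hc))
    obtain ⟨x, hx⟩ := Pool.Agent.Q91.PP.divisible_of_conj hj hconj k
    exact hk x hx

end Pool.Agent.Results.MP_6374fb_al.RationalTraces
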