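import Pool.Agent.Q99.WC.FinalK

/-!
# Relative rational injectivity of `colim K₁(k[H]) → K₁(k[G])` for every group and every field

For every group `G` and every field `k` the canonical map `colim K₁(k[H]) → K₁(k[G])`, the colimit
being over the finite subgroups `H` of `G`, stays injective after tensoring with the rational
numbers if one divides out, on both sides, the relations given by any set `Θ` of injective
homomorphisms `θ : A → G` defined on subgroups `A` of `G` (for example a group of automorphisms of
`G`) and the classes coming from the members of any set `𝓗` of subgroups of `G`.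

The definitions of `K₁(k[G])` (`GK1`), `colim K₁(k[H])` (`ColimK1`) and of the assembly map are in
`Pool.Agent.Y69.WhDef` and `Pool.Agent.Y69.TK.KDef`, the subgroups `kRel` and `kColimRel` are in
`Pool.Agent.Q99.WC.FinalK`.
-/

set_option autoImplicit false

namespace Pool.Agent.Results.MP_6374fb_al.RelativeFieldInjectivity

open Pool.Agent.Y69 Pool.Agent.Q99.WC

/-- Let `k` be a field, `G` a group, `Θ` a set of injective homomorphisms `A → G` defined on
subgroups `A` of `G`, and `𝓗` a set of subgroups of `G`.  If a positive multiple of the image in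
`K₁(k[G])` of `x ∈ colim K₁(k[H])` lies in the subgroup `kRel k Θ 𝓗` generated by the differences
`θ_*(y) - i_*(y)` and by the images of the groups `K₁(k[H])`, `H ∈ 𝓗`, then a positive multiple of
`x` lies in the corresponding subgroup `kColimRel k Θ 𝓗` of `colim K₁(k[H])`. -/
theorem result (k G : Type) [Field k] [Group G] (Θ : Set (Σ A : Subgroup G, A →* G))
    (𝓗 : Set (Subgroup G)) (hΘ : ∀ s ∈ Θ, Function.Injective s.2) (x : FJK.ColimK1 k G) (n : ℕ)
    (hn : 0 < n) (hx : n • FJK.assembly k G x ∈ kRel k Θ 𝓗) :
    ∃ l : ℕ, 0 < l ∧ l • x ∈ kColimRel k Θ 𝓗 :=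
  k_rel k Θ 𝓗 hΘ x n hn hx

end Pool.Agent.Results.MP_6374fb_al.RelativeFieldInjectivity
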