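import Pool.Agent.Q105.FJ.Semi

/-!
# Extensions by linear groups on which the quotient acts by semilinear automorphisms

`Closed C` (`Pool.Agent.Y462.SS.Base`): the class `C` of groups contains `ℤ` and is closed under
groups that embed, finite products, free products, overgroups of finite index and colimits of directed
systems with arbitrary structure maps.  `ExtClosed C` (`Pool.Agent.Q152.WP.Perm`): if `G` maps onto a
group `Q` of `C`, and the kernel and the preimages of all infinite cyclic subgroups of `Q` are in `C`,
then `G` is in `C`.  All these properties are known for the class of the groups which satisfy the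
K-theoretic Farrell–Jones conjecture with coefficients and finite wreath products.  The groups
`GL_n(F)` of the number fields and of the function fields in one variable over finite fields `F` are in
this class (Rüping); as it is closed under directed colimits, so are the groups `GL_n(R)` for all
subrings `R` of algebraic closures of these fields.

If `R` is integral over `A`, for example if `R` is the field of all algebraic numbers or the ring of
all algebraic integers, all automorphisms of `R` over `A` have finite orbits; in general they are not
of finite order.

Outline of the proof.  Let `τ` act on `N ≤ GL_n(R)` by `x ↦ a σ(x) a⁻¹`.  On a finite subset `E` of `N`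
some power `σ^k`, `k > 0`, is trivial, and `τ^k` acts as an element `m` of `GL_n(R)`.  The diagonal map
`x ↦ (x, τ x τ⁻¹, …)` to `GL_n(R)^k` and a cyclic permutation of the factors, corrected by `m`, show
that the HNN extension of `N` whose stable letter acts as `τ` on the subgroup generated by `E` maps to
the wreath product of `GL_n(R)` and a finite group, injectively on `N`.  These HNN extensions are in
the class, and `N ⟨τ⟩` is their colimit.
-/

set_option autoImplicit false

namespace Pool.Agent.Results.MP_6374fb_al.SemilinearExtensions

open Pool.Agent.Y462.SS Pool.Agent.Q152.WP Pool.Agent.Q105.FJ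

/-- The orbits of the automorphism `σ` of the ring `R` are finite. -/
def FiniteOrbits {R : Type} [CommRing R] (σ : R ≃+* R) : Prop :=
  ∀ c : R, ∃ m : ℕ, 0 < m ∧ (σ ^ m) c = c

/-- The conjugation by `g` is on `N` of the form `x ↦ a σ(x) a⁻¹` or `x ↦ a σ(x)^(-T) a⁻¹`, for an
element `a` of `GL_n(R)` and an automorphism `σ` of `R` with finite orbits.  Here `N` is embedded in
`GL_n(R)` by `ρ` and is the normal subgroup `j N` of `G`; `gs σ` is the application of `σ` to the
entries and `tin` is the transpose inverse. -/
def Semilinear {R : Type} [CommRing R] {n : ℕ} {N G : Type} [Group N] [Group G]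
    (ρ : N →* GL (Fin n) R) (j : N →* G) (g : G) : Prop :=
  ∃ (a : GL (Fin n) R) (σ : R ≃+* R), FiniteOrbits σ ∧
    ((∀ x y : N, g * j x * g⁻¹ = j y → ρ y = a * gs σ (ρ x) * a⁻¹) ∨
      ∀ x y : N, g * j x * g⁻¹ = j y → ρ y = a * tin (gs σ (ρ x)) * a⁻¹)

/-- All extensions of groups of the class by subgroups of `GL_n(R)`, on which the elements of infinite
order of the quotient act by semilinear automorphisms, are in the class. -/
def SemiExt (C : ∀ (G : Type) [Group G], Prop) (R : Type) [CommRing R] (n : ℕ) : Prop :=
  ∀ (N G Q : Type) [Group N] [Group G] [Group Q] (ρ : N →* GL (Fin n) R) (f : G →* Q) (j : N →* G),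
    Function.Injective ρ → Function.Surjective f → Function.Injective j → j.range = f.ker → C Q →
    (∀ g : G, ¬ IsOfFinOrder (f g) → Semilinear ρ j g) → C G

/-- All automorphisms over `A` of a domain `R` which is integral over `A` have finite orbits. -/
def IntegralOrbits : Prop :=
  ∀ (A R : Type) [CommRing A] [CommRing R] [IsDomain R] [Algebra A R] [Algebra.IsIntegral A R]
    (σ : R ≃ₐ[A] R), FiniteOrbits (σ : R ≃+* R)

/-- **Semilinear extensions of linear groups.** -/
theorem result :
    (∀ C : (∀ (G : Type) [Group G], Prop), Closed C → ExtClosed C →
      ∀ (R : Type) [CommRing R] (n : ℕ), C (GL (Fin n) R) → SemiExt C R n) ∧ IntegralOrbits := by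
  refine ⟨fun C hC hE R _ n hGL N G Q _ _ _ ρ f j hρ hf hj hker hQ h => ?_, ?_⟩
  · exact semi_kernel hC hE hGL ρ hρ f hf hQ j hj hker h
  · intro A R _ _ _ _ _ σ
    exact finOrb_of_integral σ

end Pool.Agent.Results.MP_6374fb_al.SemilinearExtensions
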